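import Pool.Agent.L7h78.LP

/-!
Explicit matrices over `ℤ[T;T⁻¹]`: the form `M = L ⊕ H₂`, the form `D = ⟨1⟩ ⊕ ⟨1⟩ ⊕ H₂` and an
isometry `P` between them.
-/

set_option autoImplicit false

namespace Pool.Agent.L7h78.Data

open Pool.Agent.L7h78.LP

/-- the form `L ⊕ H₂` -/
def M : Fin 4 → Fin 4 → Lp :=
  ![![⟨-3, [1, 0, 0, 3, 0, 0, 1]⟩, ⟨-3, [1, -1, 1, 1, -1, -1, 0, -1, -1]⟩, ⟨0, []⟩, ⟨0, []⟩],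
    ![⟨-5, [-1, -1, 0, -1, -1, 1, 1, -1, 1]⟩, ⟨-5, [-1, 0, 0, 0, 0, 3, 0, 0, 0, 0, -1]⟩, ⟨0, []⟩, ⟨0, []⟩],
    ![⟨0, []⟩, ⟨0, []⟩, ⟨0, []⟩, ⟨0, [-1, 1]⟩],
    ![⟨0, []⟩, ⟨0, []⟩, ⟨-1, [1, -1]⟩, ⟨0, []⟩]]

/-- the isometry -/
def P : Fin 4 → Fin 4 → Lp :=
  ![![⟨-2, [-1, 0, 0, 1]⟩, ⟨-2, [-1, 0, 1, 1]⟩, ⟨-6, [1, -2, 1, 0, 1, -2, 1, -1, 2, -1]⟩, ⟨-5, [1, 0, -1, -1, 0, 1, 1, 0, -1]⟩],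
    ![⟨-1, [1]⟩, ⟨-2, [1, 1]⟩, ⟨-6, [-1, 1, 1, -2, 1, -1, 2, -1]⟩, ⟨-5, [-1, -1, 1, 1, 1, 0, -1]⟩],
    ![⟨-2, [-1, 0, -1, 1]⟩, ⟨0, [1, 1]⟩, ⟨-2, [1, -1, 1, -2, 3, -1]⟩, ⟨-1, [1, 2, 2, 1, -1]⟩],
    ![⟨-2, [-1, 0, 0, 0, 1]⟩, ⟨1, [1, 1]⟩, ⟨-2, [1, -1, 1, -1, 0, 2, -1]⟩, ⟨-1, [1, 2, 2, 2, 0, -1]⟩]]

/-- its inverse -/
def Pi : Fin 4 → Fin 4 → Lp :=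
  ![![⟨-3, [-1, 0, 1, -1, 1, -1, -1, 1, -1]⟩, ⟨-3, [-1, 1, 0, 0, 1, -1, 0, 0, 0, 0, 1]⟩, ⟨-3, [1, -1, 0, 0, -1, 1]⟩, ⟨-1, [-1, 2, -1, 1, -1]⟩],
    ![⟨-3, [-1, -1, 1, 1, 0, 0, 1]⟩, ⟨-3, [-1, 0, 1, 1, 0, 1, 0, -1, -1]⟩, ⟨-3, [1, 0, -1]⟩, ⟨-1, [-1, 0, 1]⟩],
    ![⟨-4, [1, 1, -2, -3, -3, -3, -2, -2, -1]⟩, ⟨-4, [1, 0, -2, -2, -2, -1, 1, 3, 4, 3, 1]⟩, ⟨-4, [-1, 0, 2, 2, 2, 1]⟩, ⟨-2, [1, -1, -2, -2, -1]⟩],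
    ![⟨-5, [-1, 1, 2, -2, 1, 0, 0, 1, -1, 1]⟩, ⟨-5, [-1, 2, 0, -1, 1, -1, 0, -1, 1, 0, 0, -1]⟩, ⟨-5, [1, -2, 0, 1, -1, 1, -1]⟩, ⟨-3, [-1, 3, -2, 1, -1, 1]⟩]]

/-- the form `⟨1⟩ ⊕ ⟨1⟩ ⊕ H₂` -/
def D : Fin 4 → Fin 4 → Lp :=
  ![![⟨0, [1]⟩, ⟨0, []⟩, ⟨0, []⟩, ⟨0, []⟩],
    ![⟨0, []⟩, ⟨0, [1]⟩, ⟨0, []⟩, ⟨0, []⟩],
    ![⟨0, []⟩, ⟨0, []⟩, ⟨0, []⟩, ⟨0, [-1, 1]⟩],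
    ![⟨0, []⟩, ⟨0, []⟩, ⟨-1, [1, -1]⟩, ⟨0, []⟩]]

/-- the identity matrix -/
def I : Fin 4 → Fin 4 → Lp :=
  ![![⟨0, [1]⟩, ⟨0, []⟩, ⟨0, []⟩, ⟨0, []⟩],
    ![⟨0, []⟩, ⟨0, [1]⟩, ⟨0, []⟩, ⟨0, []⟩],
    ![⟨0, []⟩, ⟨0, []⟩, ⟨0, [1]⟩, ⟨0, []⟩],
    ![⟨0, []⟩, ⟨0, []⟩, ⟨0, []⟩, ⟨0, [1]⟩]]

set_option maxRecDepth 100000 in
theorem check1 : eqM (mulM P Pi) I = true := by decide +kernel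

set_option maxRecDepth 100000 in
theorem check2 : eqM (mulM Pi P) I = true := by decide +kernel

set_option maxRecDepth 100000 in
theorem check3 : eqM (mulM (mulM (starM P) M) P) D = true := by decide +kernel

end Pool.Agent.L7h78.Data
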