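import Pool.Agent.L7h78.Unicoh

/-!
The Hantzsche-Wendt quotient of the 3-torus: a fixed point free action of the Klein four group on
the 3-torus whose orbit space is unicoherent.
-/

set_option autoImplicit false

open Topology Set

namespace Pool.Agent.L7h78.HW

/-- The circle `ℝ/ℤ`. -/
abbrev C := AddCircle (1 : ℝ)

/-- The 3-torus. -/
abbrev X := C × C × C

/-- The point of order two. -/
noncomputable def h : C := ((1 / 2 : ℝ) : C)

theorem h_add_h : h + h = 0 := by
  rw [h, ← AddCircle.coe_add, AddCircle.coe_eq_zero_iff]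
  exact ⟨1, by norm_num⟩

theorem neg_h : -h = h := by
  rw [neg_eq_iff_add_eq_zero]; exact h_add_h

theorem h_ne : h ≠ 0 := by
  intro h0
  rw [h, AddCircle.coe_eq_zero_iff] at h0
  obtain ⟨n, hn⟩ := h0
  have h1 : (n : ℝ) = 1 / 2 := by simpa using hn
  have h2 : ((2 * n : ℤ) : ℝ) = ((1 : ℤ) : ℝ) := by push_cast; linarith
  have h3 : 2 * n = 1 := by exact_mod_cast h2
  omega

/-- first generator on the torus -/
noncomputable def a : Equiv.Perm X where
  toFun v := (v.1 + h, -v.2.1 + h, -v.2.2)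
  invFun v := (v.1 + h, -v.2.1 + h, -v.2.2)
  left_inv v := by
    have e1 : v.1 + h + h = v.1 := by rw [add_assoc, h_add_h, add_zero]
    have e2 : -(-v.2.1 + h) + h = v.2.1 := by abel
    ext <;> simp [e1]
  right_inv v := by
    have e1 : v.1 + h + h = v.1 := by rw [add_assoc, h_add_h, add_zero]
    ext <;> simp [e1]

/-- second generator on the torus -/
noncomputable def b : Equiv.Perm X where
  toFun v := (-v.1, v.2.1 + h, -v.2.2 + h)
  invFun v := (-v.1, v.2.1 + h, -v.2.2 + h)
  left_inv v := by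
    have e1 : v.2.1 + h + h = v.2.1 := by rw [add_assoc, h_add_h, add_zero]
    ext <;> simp [e1]
  right_inv v := by
    have e1 : v.2.1 + h + h = v.2.1 := by rw [add_assoc, h_add_h, add_zero]
    ext <;> simp [e1]

theorem a_apply (v : X) : a v = (v.1 + h, -v.2.1 + h, -v.2.2) := rfl
theorem b_apply (v : X) : b v = (-v.1, v.2.1 + h, -v.2.2 + h) := rfl

theorem a_mul_a : a * a = 1 := by
  ext v : 1
  exact a.left_inv v

theorem b_mul_b : b * b = 1 := by
  ext v : 1
  exact b.left_inv v

theorem b_mul_a : b * a = a * b := by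
  ext v : 1
  have e1 : ∀ x : C, -(x + h) = -x + h := fun x => by rw [neg_add, neg_h]
  have e2 : ∀ x : C, -(-x + h) + h = x := fun x => by abel
  simp only [Equiv.Perm.mul_apply, a_apply, b_apply]
  refine Prod.ext ?_ (Prod.ext ?_ ?_)
  · simp only [e1]
  · simp only [e1]
  · simp only [e1, neg_neg]

/-- The Klein four group acting on the torus. -/
noncomputable def G : Subgroup (Equiv.Perm X) where
  carrier := {1, a, b, a * b}
  one_mem' := by simp
  mul_mem' := by
    have haa := a_mul_a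
    have hbb := b_mul_b
    have hba := b_mul_a
    have h1 : a * (a * b) = b := by rw [← mul_assoc, haa, one_mul]
    have h2 : b * (a * b) = a := by rw [← mul_assoc, hba, mul_assoc, hbb, mul_one]
    have h3 : a * b * a = b := by rw [mul_assoc, hba, h1]
    have h4 : a * b * b = a := by rw [mul_assoc, hbb, mul_one]
    have h5 : a * b * (a * b) = 1 := by rw [mul_assoc, h2, haa]
    rintro x y (rfl | rfl | rfl | rfl) (rfl | rfl | rfl | rfl) <;>
      simp only [mul_one, one_mul, haa, hbb, hba, h1, h2, h3, h4, h5, Set.mem_insert_iff,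
        Set.mem_singleton_iff, true_or, or_true]
  inv_mem' := by
    have haa : a⁻¹ = a := inv_eq_of_mul_eq_one_left a_mul_a
    have hbb : b⁻¹ = b := inv_eq_of_mul_eq_one_left b_mul_b
    rintro x (rfl | rfl | rfl | rfl) <;>
      simp only [inv_one, haa, hbb, mul_inv_rev, b_mul_a, Set.mem_insert_iff,
        Set.mem_singleton_iff, true_or, or_true]

instance : Finite G := by
  have : (({1, a, b, a * b} : Set (Equiv.Perm X))).Finite := by
    simp
  exact this.to_subtype

theorem continuous_a : Continuous a := by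
  have : (a : X → X) = fun v => (v.1 + h, -v.2.1 + h, -v.2.2) := rfl
  rw [this]; fun_prop

theorem continuous_b : Continuous b := by
  have : (b : X → X) = fun v => (-v.1, v.2.1 + h, -v.2.2 + h) := rfl
  rw [this]; fun_prop

instance : ContinuousConstSMul G X where
  continuous_const_smul := by
    rintro ⟨g, hg⟩
    change Continuous (g : X → X)
    rcases hg with rfl | rfl | rfl | rfl
    · exact continuous_id
    · exact continuous_a
    · exact continuous_b
    · exact continuous_a.comp continuous_b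

theorem free (g : Equiv.Perm X) (hg : g ∈ G) (v : X) (hv : g v = v) : g = 1 := by
  have key : ∀ x : C, x + h ≠ x := fun x hx => h_ne (by simpa using hx)
  rcases hg with rfl | rfl | rfl | rfl
  · rfl
  · exact absurd (congrArg Prod.fst hv) (key _)
  · exact absurd (congrArg (fun w : X => w.2.1) hv) (key _)
  · exfalso
    have h1 := congrArg (fun w : X => w.2.2) hv
    simp only [Equiv.Perm.mul_apply, a_apply, b_apply] at h1
    rw [neg_add, neg_neg, neg_h] at h1
    exact key _ h1

instance : IsCancelSMul G X where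
  left_cancel' g x y hxy := by
    exact MulAction.injective g hxy
  right_cancel' g g' x hxy := by
    have h1 : ((g'⁻¹ * g : G) : Equiv.Perm X) x = x := by
      change (g'⁻¹ * g : G) • x = x
      rw [mul_smul, hxy, inv_smul_smul]
    have h2 := free _ (g'⁻¹ * g : G).2 x h1
    have h3 : g'⁻¹ * g = 1 := Subtype.ext h2
    exact (inv_mul_eq_one.mp h3).symm

/-- The orbit space. -/
abbrev Y := MulAction.orbitRel.Quotient G X

/-- The orbit map. -/
noncomputable def f : X → Y := Quotient.mk _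

theorem cov : IsQuotientCoveringMap f G :=
  isQuotientCoveringMap_quotientMk_of_properlyDiscontinuousSMul

theorem surj : Function.Surjective f := Quotient.mk_surjective

theorem isLocalHomeomorph_f : IsLocalHomeomorph f := cov.isCoveringMap.isLocalHomeomorph

instance : T2Space Y :=
  inferInstanceAs (T2Space (Quotient (MulAction.orbitRel G X)))

instance : CompactSpace Y :=
  inferInstanceAs (CompactSpace (Quotient (MulAction.orbitRel G X)))

instance : SecondCountableTopology Y :=
  ContinuousConstSMul.secondCountableTopology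

/-- The projection from the universal cover to the torus. -/
noncomputable def q : ℝ × ℝ × ℝ → X := fun v => ((v.1 : C), (v.2.1 : C), (v.2.2 : C))

theorem continuous_q : Continuous q := by
  have hc : Continuous ((↑) : ℝ → C) := AddCircle.continuous_mk' 1
  unfold q
  fun_prop

theorem isOpenMap_q : IsOpenMap q := by
  have hc : IsOpenMap ((↑) : ℝ → C) := QuotientAddGroup.isOpenMap_coe
  exact hc.prodMap (hc.prodMap hc)

theorem surj_q : Function.Surjective q := by
  rintro ⟨x, y, z⟩
  obtain ⟨x, rfl⟩ := QuotientAddGroup.mk_surjective x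
  obtain ⟨y, rfl⟩ := QuotientAddGroup.mk_surjective y
  obtain ⟨z, rfl⟩ := QuotientAddGroup.mk_surjective z
  exact ⟨(x, y, z), rfl⟩

theorem quot_q : IsQuotientMap q := isOpenMap_q.isQuotientMap continuous_q surj_q

instance : LocallyConnectedSpace X := quot_q.isCoinducing.locallyConnectedSpace

/-- lift of the first generator -/
noncomputable def A (v : ℝ × ℝ × ℝ) : ℝ × ℝ × ℝ := (v.1 + 1 / 2, -v.2.1 + 1 / 2, -v.2.2)

/-- lift of the second generator -/
noncomputable def B (v : ℝ × ℝ × ℝ) : ℝ × ℝ × ℝ := (-v.1, v.2.1 + 1 / 2, -v.2.2 + 1 / 2)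

theorem q_A (v : ℝ × ℝ × ℝ) : q (A v) = a (q v) := by
  simp [q, A, a_apply, h]

theorem q_B (v : ℝ × ℝ × ℝ) : q (B v) = b (q v) := by
  simp [q, B, b_apply, h]

theorem f_a (v : X) : f (a v) = f v :=
  Quotient.sound (s := MulAction.orbitRel G X) ⟨⟨a, by simp [G]⟩, rfl⟩

theorem f_b (v : X) : f (b v) = f v :=
  Quotient.sound (s := MulAction.orbitRel G X) ⟨⟨b, by simp [G]⟩, rfl⟩

theorem lift (g : Y → C) (hg : Continuous g) :
    ∃ φ : Y → ℝ, Continuous φ ∧ ∀ y, ((φ y : ℝ) : C) = g y := by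
  have hfc : Continuous f := cov.isCoveringMap.continuous
  have hcomp : Continuous (fun v : ℝ × ℝ × ℝ => g (f (q v))) := hg.comp (hfc.comp continuous_q)
  obtain ⟨e₀, he₀⟩ := QuotientAddGroup.mk_surjective (g (f (q (0, 0, 0))))
  obtain ⟨Φ, ⟨-, hΦ⟩, -⟩ := (AddCircle.isCoveringMap_coe (1 : ℝ)).existsUnique_continuousMap_lifts
    (⟨_, hcomp⟩ : C(ℝ × ℝ × ℝ, C)) (0, 0, 0) e₀ he₀
  have hΦ' : ∀ v, ((Φ v : ℝ) : C) = g (f (q v)) := fun v => congrFun hΦ v
  have cA : Continuous A := by unfold A; fun_prop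
  have cB : Continuous B := by unfold B; fun_prop
  -- the two periods
  have hA : ∃ c : ℝ, ∀ v, Φ (A v) = Φ v + c := by
    refine ⟨Φ (A 0) - Φ 0, fun v => ?_⟩
    have := Unicoh.const_of_coe_eq (φ := fun v => Φ (A v)) (ψ := fun v => Φ v)
      (isPreconnected_univ (α := ℝ × ℝ × ℝ)) (Φ.continuous.comp cA).continuousOn
      Φ.continuous.continuousOn (fun y _ => by rw [hΦ', hΦ', q_A, f_a]) (mem_univ v)
      (mem_univ 0)
    linarith
  have hB : ∃ c : ℝ, ∀ v, Φ (B v) = Φ v + c := by
    refine ⟨Φ (B 0) - Φ 0, fun v => ?_⟩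
    have := Unicoh.const_of_coe_eq (φ := fun v => Φ (B v)) (ψ := fun v => Φ v)
      (isPreconnected_univ (α := ℝ × ℝ × ℝ)) (Φ.continuous.comp cB).continuousOn
      Φ.continuous.continuousOn (fun y _ => by rw [hΦ', hΦ', q_B, f_b]) (mem_univ v)
      (mem_univ 0)
    linarith
  obtain ⟨cA', hA⟩ := hA
  obtain ⟨cB', hB⟩ := hB
  have eA : ∀ v : ℝ × ℝ × ℝ, A (A v) = (v.1 + 1, v.2.1, v.2.2) := by
    intro v
    simp only [A]
    refine Prod.ext ?_ (Prod.ext ?_ ?_) <;> simp <;> ring
  have eB : ∀ v : ℝ × ℝ × ℝ, B (B v) = (v.1, v.2.1 + 1, v.2.2) := by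
    intro v
    simp only [B]
    refine Prod.ext ?_ (Prod.ext ?_ ?_) <;> simp <;> ring
  have hcB : cB' = 0 := by
    have e : B (B (A (B (B (0, 0, 0))))) = A (0, 0, 0) := by
      rw [eB, eB]
      simp only [A]
      refine Prod.ext ?_ (Prod.ext ?_ ?_) <;> simp
    have := congrArg Φ e
    rw [hB, hB, hA, hB, hB, hA] at this
    linarith
  have hcA : cA' = 0 := by
    have e : A (A (B (A (A (0, 0, 0))))) = B (0, 0, 0) := by
      rw [eA, eA]
      simp only [B]
      refine Prod.ext ?_ (Prod.ext ?_ ?_) <;> simp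
    have := congrArg Φ e
    rw [hA, hA, hB, hA, hA, hB] at this
    linarith
  subst hcA hcB
  simp only [add_zero] at hA hB
  have t1 : ∀ x y z : ℝ, Φ (x + 1, y, z) = Φ (x, y, z) := by
    intro x y z
    have := eA (x, y, z)
    rw [← this, hA, hA]
  have t2 : ∀ x y z : ℝ, Φ (x, y + 1, z) = Φ (x, y, z) := by
    intro x y z
    have := eB (x, y, z)
    rw [← this, hB, hB]
  have t3 : ∀ x y z : ℝ, Φ (x, y, z + 1) = Φ (x, y, z) := by
    intro x y z
    have e : A (B (A (B (x, y, z + 1)))) = (x, y, z) := by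
      simp only [A, B]
      refine Prod.ext ?_ (Prod.ext ?_ ?_) <;> simp <;> ring
    have := congrArg Φ e
    rw [hA, hB, hA, hB] at this
    exact this
  have p1 : ∀ (y z : ℝ), Function.Periodic (fun x => Φ (x, y, z)) 1 := fun y z x => t1 x y z
  have p2 : ∀ (x z : ℝ), Function.Periodic (fun y => Φ (x, y, z)) 1 := fun x z y => t2 x y z
  have p3 : ∀ (x y : ℝ), Function.Periodic (fun z => Φ (x, y, z)) 1 := fun x y z => t3 x y z
  have hq : ∀ v w : ℝ × ℝ × ℝ, q v = q w → Φ v = Φ w := by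
    rintro ⟨x, y, z⟩ ⟨x', y', z'⟩ hvw
    simp only [q, Prod.mk.injEq] at hvw
    obtain ⟨h1, h2, h3⟩ := hvw
    have key : ∀ s t : ℝ, (s : C) = (t : C) → ∃ n : ℤ, s = t + n * 1 := by
      intro s t hst
      rw [← sub_eq_zero, ← AddCircle.coe_sub, AddCircle.coe_eq_zero_iff] at hst
      obtain ⟨n, hn⟩ := hst
      refine ⟨n, ?_⟩
      have : (n : ℝ) = s - t := by simpa using hn
      linarith
    obtain ⟨n1, rfl⟩ := key _ _ h1
    obtain ⟨n2, rfl⟩ := key _ _ h2
    obtain ⟨n3, rfl⟩ := key _ _ h3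
    have r1 := (p1 (y' + n2 * 1) (z' + n3 * 1)).int_mul n1 x'
    have r2 := (p2 x' (z' + n3 * 1)).int_mul n2 y'
    have r3 := (p3 x' y').int_mul n3 z'
    rw [r1, r2, r3]
  have hfq : ∀ v w : ℝ × ℝ × ℝ, f (q v) = f (q w) → Φ v = Φ w := by
    intro v w hvw
    have hmem := (cov.apply_eq_iff_mem_orbit).mp hvw
    obtain ⟨⟨g, hg⟩, hgv⟩ := hmem
    change g (q w) = q v at hgv
    rcases hg with rfl | rfl | rfl | rfl
    · exact (hq _ _ hgv).symm
    · rw [← q_A] at hgv
      rw [← hq _ _ hgv, hA]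
    · rw [← q_B] at hgv
      rw [← hq _ _ hgv, hB]
    · rw [Equiv.Perm.mul_apply, ← q_B, ← q_A] at hgv
      rw [← hq _ _ hgv, hA, hB]
  have hquot : IsQuotientMap (fun v => f (q v)) :=
    (cov.isOpenQuotientMap.isQuotientMap).comp quot_q
  refine ⟨fun y => Φ (Function.surjInv hquot.surjective y), ?_, ?_⟩
  · rw [hquot.continuous_iff]
    refine Φ.continuous.congr fun v => ?_
    exact hfq _ _ (Function.surjInv_eq hquot.surjective (f (q v))).symm
  · intro y
    rw [hΦ']
    exact congrArg g (Function.surjInv_eq hquot.surjective y)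

/-- half of the torus -/
def HA : Set X := (((↑) : ℝ → C) '' Icc 0 (1 / 2)) ×ˢ univ
/-- other half of the torus -/
def HB : Set X := (((↑) : ℝ → C) '' Icc (1 / 2) 1) ×ˢ univ

theorem isClosed_HA : IsClosed HA :=
  ((isCompact_Icc.image (AddCircle.continuous_mk' 1)).isClosed).prod isClosed_univ

theorem isClosed_HB : IsClosed HB :=
  ((isCompact_Icc.image (AddCircle.continuous_mk' 1)).isClosed).prod isClosed_univ

theorem isConnected_HA : IsConnected HA :=
  ((isConnected_Icc (by norm_num)).image _ (AddCircle.continuous_mk' 1).continuousOn).prod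
    isConnected_univ

theorem isConnected_HB : IsConnected HB :=
  ((isConnected_Icc (by norm_num)).image _ (AddCircle.continuous_mk' 1).continuousOn).prod
    isConnected_univ

theorem union : HA ∪ HB = univ := by
  rw [eq_univ_iff_forall]
  rintro ⟨x, yz⟩
  have : x ∈ ((↑) : ℝ → C) '' Icc 0 (0 + 1) := by
    rw [AddCircle.coe_image_Icc_eq]
    exact mem_univ _
  obtain ⟨t, ht, rfl⟩ := this
  rcases le_total t (1 / 2) with h1 | h1
  · exact Or.inl ⟨⟨t, ⟨ht.1, h1⟩, rfl⟩, mem_univ _⟩
  · exact Or.inr ⟨⟨t, ⟨h1, by linarith [ht.2]⟩, rfl⟩, mem_univ _⟩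

theorem inter_sub (v : X) (hv : v ∈ HA ∩ HB) : v.1 ∈ ({0, h} : Set C) := by
  obtain ⟨⟨⟨s, hs, hs'⟩, -⟩, ⟨⟨t, ht, ht'⟩, -⟩⟩ := hv
  have : (s : C) = (t : C) := hs'.trans ht'.symm
  rw [← sub_eq_zero, ← AddCircle.coe_sub, AddCircle.coe_eq_zero_iff] at this
  obtain ⟨n, hn⟩ := this
  have hn : (n : ℝ) = s - t := by simpa using hn
  have h1 : (n : ℝ) ≤ 0 := by rw [hn]; linarith [hs.2, ht.1]
  have h2 : (-1 : ℝ) ≤ n := by rw [hn]; linarith [hs.1, ht.2]
  have h1' : n ≤ 0 := by exact_mod_cast h1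
  have h2' : -1 ≤ n := by exact_mod_cast h2
  have h3 : n = 0 ∨ n = -1 := by omega
  rcases h3 with rfl | rfl
  · right
    have : s = 1 / 2 := by
      have : s = t := by push_cast at hn; linarith
      linarith [hs.2, ht.1]
    rw [mem_singleton_iff, ← hs', this]; rfl
  · left
    have : s = 0 := by push_cast at hn; linarith [hs.1, ht.2]
    rw [← hs', this]; simp

theorem not_inter : ¬ IsConnected (HA ∩ HB) := by
  intro hc
  have himg : IsPreconnected (Prod.fst '' (HA ∩ HB)) := hc.isPreconnected.image _ continuous_fst.continuousOn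
  have h0 : ((0 : C), ((0 : C), (0 : C))) ∈ HA ∩ HB := by
    refine ⟨⟨⟨0, ⟨le_refl _, by norm_num⟩, by simp⟩, mem_univ _⟩,
      ⟨⟨1, ⟨by norm_num, le_refl _⟩, ?_⟩, mem_univ _⟩⟩
    exact AddCircle.coe_period 1
  have hh : (h, ((0 : C), (0 : C))) ∈ HA ∩ HB :=
    ⟨⟨⟨1 / 2, ⟨by norm_num, le_refl _⟩, rfl⟩, mem_univ _⟩,
      ⟨⟨1 / 2, ⟨le_refl _, by norm_num⟩, rfl⟩, mem_univ _⟩⟩
  have hfin : (Prod.fst '' (HA ∩ HB)).Finite := by
    refine (Set.toFinite ({0, h} : Set C)).subset ?_
    rintro _ ⟨v, hv, rfl⟩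
    exact inter_sub v hv
  have := hfin.countable.isTotallyDisconnected _ (subset_refl _) himg ⟨_, hh, rfl⟩ ⟨_, h0, rfl⟩
  exact h_ne this

end Pool.Agent.L7h78.HW
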