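import Mathlib

/-!
A small calculus of dense Laurent polynomials with integer coefficients, used to verify explicit
matrix identities over `ℤ[T;T⁻¹]` by kernel computation.
-/

set_option autoImplicit false

open LaurentPolynomial

namespace Pool.Agent.L7h78.LP

/-- Laurent polynomials over the integers. -/
abbrev R := LaurentPolynomial ℤ

/-- `ev s [a₀, a₁, ...] = a₀ T^s + a₁ T^(s+1) + ...` -/
noncomputable def ev : ℤ → List ℤ → R
  | _, [] => 0
  | s, a :: l => C a * T s + ev (s + 1) l

/-- sum of coefficient lists -/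
def addL : List ℤ → List ℤ → List ℤ
  | [], m => m
  | a :: l, [] => a :: l
  | a :: l, b :: m => (a + b) :: addL l m

/-- product of coefficient lists -/
def mulL : List ℤ → List ℤ → List ℤ
  | [], _ => []
  | a :: l, m => addL (m.map (a * ·)) (0 :: mulL l m)

theorem ev_addL (l m : List ℤ) (s : ℤ) : ev s (addL l m) = ev s l + ev s m := by
  induction l generalizing m s with
  | nil => simp [addL, ev]
  | cons a l ih =>
    cases m with
    | nil => simp [addL, ev]
    | cons b m => simp only [addL, ev, ih, map_add]; ring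

theorem ev_map (a : ℤ) (m : List ℤ) (s : ℤ) : ev s (m.map (a * ·)) = C a * ev s m := by
  induction m generalizing s with
  | nil => simp [ev]
  | cons b m ih => simp only [List.map_cons, ev, ih, map_mul]; ring

theorem ev_shift (k : ℤ) (m : List ℤ) (s : ℤ) : ev (s + k) m = T s * ev k m := by
  induction m generalizing k with
  | nil => simp [ev]
  | cons b m ih =>
    simp only [ev]
    rw [add_assoc, ih, T_add]; ring

theorem ev_mulL (l m : List ℤ) (s k : ℤ) : ev (s + k) (mulL l m) = ev s l * ev k m := by
  induction l generalizing s with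
  | nil => simp [mulL, ev]
  | cons a l ih =>
    simp only [mulL, ev_addL, ev, ev_map, map_zero, zero_mul, zero_add]
    rw [add_right_comm s k 1, ih, ev_shift]
    ring

theorem ev_append (l : List ℤ) (a : ℤ) (s : ℤ) :
    ev s (l ++ [a]) = ev s l + C a * T (s + l.length) := by
  induction l generalizing s with
  | nil => simp [ev]
  | cons b l ih =>
    simp only [List.cons_append, ev, ih, List.length_cons, Nat.cast_add, Nat.cast_one]
    rw [add_assoc s 1, add_comm (1 : ℤ), add_assoc]

theorem ev_reverse (σ : R →+* R) (hσ : σ (T 1) = T (-1)) (l : List ℤ) (s : ℤ) :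
    σ (ev s l) = ev (1 - s - l.length) l.reverse := by
  have hC : ∀ a : ℤ, σ (C a) = C a := fun a => by simp
  have hT : ∀ n : ℤ, σ (T n) = T (-n) := by
    have hinv : ∀ n : ℕ, σ (T (n : ℤ)) = T (-(n : ℤ)) := by
      intro n
      induction n with
      | zero => simp
      | succ n ih =>
        rw [Nat.cast_succ, T_add, map_mul, ih, hσ, ← T_add]
        congr 1; ring
    intro n
    rcases Int.eq_nat_or_neg n with ⟨m, rfl | rfl⟩
    · exact hinv m
    · have h1 : σ (T (-(m : ℤ))) * σ (T (m : ℤ)) = 1 := by
        rw [← map_mul, ← T_add]; simp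
      rw [hinv] at h1
      have h2 : T (-(m : ℤ)) * T (m : ℤ) = (1 : R) := by rw [← T_add]; simp
      rw [neg_neg]
      calc σ (T (-(m : ℤ))) = σ (T (-(m : ℤ))) * (T (-(m : ℤ)) * T (m : ℤ)) := by rw [h2, mul_one]
        _ = (σ (T (-(m : ℤ))) * T (-(m : ℤ))) * T (m : ℤ) := by ring
        _ = T (m : ℤ) := by rw [h1, one_mul]
  induction l generalizing s with
  | nil => simp [ev]
  | cons a l ih =>
    simp only [ev, map_add, map_mul, hC, hT, ih, List.reverse_cons, ev_append,
      List.length_reverse, List.length_cons, Nat.cast_add, Nat.cast_one]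
    rw [show (1 - (s + 1) - (l.length : ℤ)) = 1 - s - (l.length + 1) by ring,
      show (1 - s - ((l.length : ℤ) + 1) + l.length) = -s by ring]
    ring

theorem ev_replicate (n : ℕ) (l : List ℤ) (s : ℤ) :
    ev s (List.replicate n 0 ++ l) = ev (s + n) l := by
  induction n generalizing s with
  | zero => simp
  | succ n ih =>
    simp only [List.replicate_succ, List.cons_append, ev, map_zero, zero_mul, zero_add, ih]
    congr 1; push_cast; ring

theorem ev_zero_of_all (l : List ℤ) (s : ℤ) (h : l.all (· == 0) = true) : ev s l = 0 := by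
  induction l generalizing s with
  | nil => simp [ev]
  | cons a l ih =>
    simp only [List.all_cons, Bool.and_eq_true, beq_iff_eq] at h
    simp [ev, h.1, ih (s + 1) h.2]

/-- shift and coefficient list -/
structure Lp where
  /-- the lowest exponent -/
  s : ℤ
  /-- the coefficients -/
  l : List ℤ

namespace Lp

/-- value -/
noncomputable def val (a : Lp) : R := ev a.s a.l

/-- sum -/
def add (a b : Lp) : Lp :=
  ⟨min a.s b.s, addL (List.replicate (a.s - min a.s b.s).toNat 0 ++ a.l)
    (List.replicate (b.s - min a.s b.s).toNat 0 ++ b.l)⟩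

/-- product -/
def mul (a b : Lp) : Lp := ⟨a.s + b.s, mulL a.l b.l⟩

/-- negation -/
def neg (a : Lp) : Lp := ⟨a.s, a.l.map ((-1) * ·)⟩

/-- conjugation `T ↦ T⁻¹` -/
def conj (a : Lp) : Lp := ⟨1 - a.s - a.l.length, a.l.reverse⟩

/-- zero test -/
def isz (a : Lp) : Bool := a.l.all (· == 0)

/-- equality test -/
def eqb (a b : Lp) : Bool := (a.add b.neg).isz

theorem val_add (a b : Lp) : (a.add b).val = a.val + b.val := by
  have h1 : 0 ≤ a.s - min a.s b.s := sub_nonneg.mpr (min_le_left _ _)
  have h2 : 0 ≤ b.s - min a.s b.s := sub_nonneg.mpr (min_le_right _ _)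
  simp only [val, add, ev_addL, ev_replicate, Int.toNat_of_nonneg h1, Int.toNat_of_nonneg h2,
    add_sub_cancel]

theorem val_mul (a b : Lp) : (a.mul b).val = a.val * b.val := ev_mulL _ _ _ _

theorem val_neg (a : Lp) : a.neg.val = - a.val := by
  simp only [val, neg, ev_map]; simp

theorem val_conj (σ : R →+* R) (hσ : σ (T 1) = T (-1)) (a : Lp) : a.conj.val = σ a.val :=
  (ev_reverse σ hσ _ _).symm

theorem val_eq_zero {a : Lp} (h : a.isz = true) : a.val = 0 := ev_zero_of_all _ _ h

theorem val_eq {a b : Lp} (h : eqb a b = true) : a.val = b.val := by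
  have := val_eq_zero h
  rw [val_add, val_neg] at this
  exact sub_eq_zero.mp (by rw [sub_eq_add_neg]; exact this)

end Lp

/-- 4 by 4 matrices -/
noncomputable def mat (A : Fin 4 → Fin 4 → Lp) : Matrix (Fin 4) (Fin 4) R :=
  Matrix.of fun i j => (A i j).val

/-- product of 4 by 4 matrices -/
def mulM (A B : Fin 4 → Fin 4 → Lp) : Fin 4 → Fin 4 → Lp := fun i j =>
  (((A i 0).mul (B 0 j)).add ((A i 1).mul (B 1 j))).add
    (((A i 2).mul (B 2 j)).add ((A i 3).mul (B 3 j)))

/-- conjugate transpose -/
def starM (A : Fin 4 → Fin 4 → Lp) : Fin 4 → Fin 4 → Lp := fun i j => (A j i).conj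

/-- equality test -/
def eqM (A B : Fin 4 → Fin 4 → Lp) : Bool :=
  (List.finRange 4).all fun i => (List.finRange 4).all fun j => (A i j).eqb (B i j)

theorem mat_mul (A B : Fin 4 → Fin 4 → Lp) : mat (mulM A B) = mat A * mat B := by
  refine Matrix.ext fun i j => ?_
  simp only [mat, mulM, Matrix.of_apply, Matrix.mul_apply, Fin.sum_univ_four, Lp.val_add,
    Lp.val_mul]
  ring

theorem mat_star (σ : R →+* R) (hσ : σ (T 1) = T (-1)) (A : Fin 4 → Fin 4 → Lp) :
    mat (starM A) = ((mat A).map σ).transpose := by
  refine Matrix.ext fun i j => ?_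
  simp only [mat, starM, Matrix.of_apply, Matrix.transpose_apply, Matrix.map_apply,
    Lp.val_conj σ hσ]

theorem mat_eq {A B : Fin 4 → Fin 4 → Lp} (h : eqM A B = true) : mat A = mat B := by
  refine Matrix.ext fun i j => ?_
  simp only [eqM, List.all_eq_true] at h
  simp only [mat, Matrix.of_apply]
  exact Lp.val_eq (h i (List.mem_finRange i) j (List.mem_finRange j))

end Pool.Agent.L7h78.LP
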