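import Pool.Agent.L7h78.Data

/-!
The positive definite unimodular hermitian form `L` of rank two over `ℤ[T;T⁻¹]` has no vector of
norm one.
-/

set_option autoImplicit false

open LaurentPolynomial

namespace Pool.Agent.L7h78.NoUnit

open Pool.Agent.L7h78.LP

theorem energy (w : R) :
    (w * invert w).coeff 0 = ∑ k ∈ w.coeff.support, (w.coeff k) ^ 2 := by
  rw [AddMonoidAlgebra.coeff_mul]
  unfold Finsupp.sum
  refine Finset.sum_congr rfl fun k hk => ?_
  beta_reduce
  rw [Finset.sum_eq_single (-k)]
  · simp [sq]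
  · intro b _ hb
    rw [if_neg]
    intro h
    exact hb (by linarith)
  · intro h
    have : (invert w).coeff (-k) = 0 := by simpa using h
    rw [this]; simp

theorem card_le (w : R) : (w.coeff.support.card : ℤ) ≤ ∑ k ∈ w.coeff.support, (w.coeff k) ^ 2 := by
  rw [Finset.cast_card]
  refine Finset.sum_le_sum fun k hk => ?_
  have h0 : w.coeff k ≠ 0 := Finsupp.mem_support_iff.mp hk
  have : 0 < (w.coeff k) ^ 2 := by positivity
  linarith

theorem energy_zero (w : R) (h : ∑ k ∈ w.coeff.support, (w.coeff k) ^ 2 = 0) : w = 0 := by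
  have h1 := card_le w
  rw [h] at h1
  have h2 : w.coeff.support.card = 0 := by
    have : (w.coeff.support.card : ℤ) = 0 := le_antisymm h1 (by positivity)
    exact_mod_cast this
  rw [Finset.card_eq_zero] at h2
  refine LaurentPolynomial.ext fun a => ?_
  have : a ∉ w.coeff.support := by rw [h2]; simp
  simpa using this

theorem energy_one (w : R) (h : ∑ k ∈ w.coeff.support, (w.coeff k) ^ 2 = 1) :
    ∃ (i a : ℤ), (a = 1 ∨ a = -1) ∧ w = C a * T i := by
  have h1 := card_le w
  rw [h] at h1
  have h2 : w.coeff.support.card ≤ 1 := by exact_mod_cast h1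
  have h3 : w.coeff.support.card ≠ 0 := by
    intro h3
    rw [Finset.card_eq_zero] at h3
    rw [h3] at h; simp at h
  have h4 : w.coeff.support.card = 1 := by omega
  obtain ⟨i, hi⟩ := Finset.card_eq_one.mp h4
  rw [hi, Finset.sum_singleton] at h
  refine ⟨i, w.coeff i, ?_, ?_⟩
  · have : (w.coeff i - 1) * (w.coeff i + 1) = 0 := by linarith [h, sq (w.coeff i)]
    rcases mul_eq_zero.mp this with h | h
    · left; linarith
    · right; linarith
  · refine LaurentPolynomial.ext fun a => ?_
    rw [← single_eq_C_mul_T, AddMonoidAlgebra.coeff_single, Finsupp.single_apply]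
    by_cases ha : a = i
    · subst ha; rw [if_pos rfl]
    · have : a ∉ w.coeff.support := by rw [hi]; simpa using ha
      have h5 : w.coeff a = 0 := by simpa using this
      rw [h5, if_neg (Ne.symm ha)]

/-- reduction modulo two -/
noncomputable def red : R →+* LaurentPolynomial (ZMod 2) :=
  AddMonoidAlgebra.mapRingHom ℤ (Int.castRingHom (ZMod 2))

theorem even_of_red (w : R) (h : red w = 0) :
    (4 : ℤ) ∣ ∑ k ∈ w.coeff.support, (w.coeff k) ^ 2 := by
  refine Finset.dvd_sum fun k _ => ?_
  have h1 : (red w).coeff k = 0 := by rw [h]; rfl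
  have h2 : (red w).coeff k = ((w.coeff k : ℤ) : ZMod 2) := by
    simp [red]
  rw [h2] at h1
  have h3 : (2 : ℤ) ∣ w.coeff k := (ZMod.intCast_zmod_eq_zero_iff_dvd _ 2).mp h1
  obtain ⟨c, hc⟩ := h3
  exact ⟨c ^ 2, by rw [hc]; ring⟩

/-- components of the two basis vectors, in units of `1/√2` -/
def z1 : Lp := ⟨0, [1, 1, 0, 1]⟩
/-- see `z1` -/
def z2 : Lp := ⟨0, [1, 0, -1, 1]⟩
/-- see `z1` -/
def w1 : Lp := ⟨0, [1, 0, 0, 0, -1, -1]⟩
/-- see `z1` -/
def w2 : Lp := ⟨0, [1, -1, 0, 0, 0, -1]⟩

/-- `T ^ 6 + T ^ 6` -/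
def d6 : Lp := ⟨6, [2]⟩

theorem v_z1 : z1.val = 1 + T 1 + T 3 := by
  simp [z1, Lp.val, ev]; ring

theorem v_z2 : z2.val = 1 - T 2 + T 3 := by
  simp [z2, Lp.val, ev]; ring

theorem v_d6 : d6.val = 2 * T 6 := by
  simp [d6, Lp.val, ev]

/-- entries of the form -/
noncomputable def A : R := (Data.M 0 0).val
/-- entries of the form -/
noncomputable def B : R := (Data.M 0 1).val
/-- entries of the form -/
noncomputable def B' : R := (Data.M 1 0).val
/-- entries of the form -/
noncomputable def D : R := (Data.M 1 1).val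

theorem hA : (A + A : R) = z1.conj.val * z1.val + z2.conj.val * z2.val := by
  have h : Lp.eqb ((Data.M 0 0).add (Data.M 0 0)) ((z1.conj.mul z1).add (z2.conj.mul z2)) = true := by
    decide +kernel
  have := Lp.val_eq h
  simp only [Lp.val_add, Lp.val_mul] at this
  exact this

theorem hB : (B + B : R) = z1.conj.val * w1.val + z2.conj.val * w2.val := by
  have h : Lp.eqb ((Data.M 0 1).add (Data.M 0 1)) ((z1.conj.mul w1).add (z2.conj.mul w2)) = true := by
    decide +kernel
  have := Lp.val_eq h
  simp only [Lp.val_add, Lp.val_mul] at this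
  exact this

theorem hB' : (B' + B' : R) = w1.conj.val * z1.val + w2.conj.val * z2.val := by
  have h : Lp.eqb ((Data.M 1 0).add (Data.M 1 0)) ((w1.conj.mul z1).add (w2.conj.mul z2)) = true := by
    decide +kernel
  have := Lp.val_eq h
  simp only [Lp.val_add, Lp.val_mul] at this
  exact this

theorem hD : (D + D : R) = w1.conj.val * w1.val + w2.conj.val * w2.val := by
  have h : Lp.eqb ((Data.M 1 1).add (Data.M 1 1)) ((w1.conj.mul w1).add (w2.conj.mul w2)) = true := by
    decide +kernel
  have := Lp.val_eq h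
  simp only [Lp.val_add, Lp.val_mul] at this
  exact this

theorem hdet : w1.val * z2.val - w2.val * z1.val = 2 * T 6 := by
  have h : Lp.eqb ((w1.mul z2).add (w2.mul z1).neg) d6 = true := by decide +kernel
  have := Lp.val_eq h
  rw [v_d6] at this
  simpa only [Lp.val_add, Lp.val_mul, Lp.val_neg, ← sub_eq_add_neg] using this

/-- `L` has no vector of norm one. -/
theorem no_unit (x y : R)
    (h : invert x * A * x + invert x * B * y + invert y * B' * x + invert y * D * y = 1) :
    False := by
  set W1 : R := z1.val * x + w1.val * y with hW1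
  set W2 : R := z2.val * x + w2.val * y with hW2
  have hinv : ∀ a : Lp, a.conj.val = invert a.val := fun a =>
    Lp.val_conj (invert : R ≃ₐ[ℤ] R).toRingEquiv.toRingHom (by simp) a
  have hnorm : W1 * invert W1 + W2 * invert W2 = 2 := by
    have e1 := hA
    have e2 := hB
    have e3 := hB'
    have e4 := hD
    simp only [hinv] at e1 e2 e3 e4
    have e5 : W1 * invert W1 + W2 * invert W2
        = 2 * (invert x * A * x + invert x * B * y + invert y * B' * x + invert y * D * y) := by
      simp only [hW1, hW2, map_add, map_mul]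
      linear_combination (-(invert x * x)) * e1 - (invert x * y) * e2 - (invert y * x) * e3
        - (invert y * y) * e4
    rw [e5, h, mul_one]
  have hcong : W1 * z2.val - W2 * z1.val = 2 * (T 6 * y) := by
    have := hdet
    simp only [hW1, hW2]
    linear_combination y * this
  have hE : (∑ k ∈ W1.coeff.support, (W1.coeff k) ^ 2)
      + ∑ k ∈ W2.coeff.support, (W2.coeff k) ^ 2 = 2 := by
    rw [← energy, ← energy, ← Finsupp.add_apply, ← AddMonoidAlgebra.coeff_add, hnorm]
    have : (2 : R) = C 2 := by simp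
    rw [this, C_apply, if_pos rfl]
  have p1 : 0 ≤ ∑ k ∈ W1.coeff.support, (W1.coeff k) ^ 2 := Finset.sum_nonneg fun _ _ => sq_nonneg _
  have p2 : 0 ≤ ∑ k ∈ W2.coeff.support, (W2.coeff k) ^ 2 := Finset.sum_nonneg fun _ _ => sq_nonneg _
  have red2 : red 2 = 0 := by
    have h1 : (2 : R) = C 2 := by simp
    refine LaurentPolynomial.ext fun k => ?_
    rw [h1]
    have h2 : (red (C 2)).coeff k = (((C 2 : R).coeff k : ℤ) : ZMod 2) := by simp [red]
    rw [h2, C_apply]
    split_ifs
    · rfl
    · simp
  have hz1 : red z1.val ≠ 0 := by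
    intro h0
    have := congrArg (fun p => AddMonoidAlgebra.coeff p 0) h0
    simp [red, v_z1] at this
  have hz2 : red z2.val ≠ 0 := by
    intro h0
    have := congrArg (fun p => AddMonoidAlgebra.coeff p 0) h0
    simp [red, v_z2] at this
  have hred : red W1 * red z2.val = red W2 * red z1.val := by
    have := congrArg red hcong
    rw [map_sub, map_mul, map_mul, map_mul, red2, zero_mul] at this
    exact sub_eq_zero.mp this
  rcases (by omega : (∑ k ∈ W1.coeff.support, (W1.coeff k) ^ 2 = 0 ∧
      ∑ k ∈ W2.coeff.support, (W2.coeff k) ^ 2 = 2) ∨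
      (∑ k ∈ W1.coeff.support, (W1.coeff k) ^ 2 = 1 ∧
      ∑ k ∈ W2.coeff.support, (W2.coeff k) ^ 2 = 1) ∨
      (∑ k ∈ W1.coeff.support, (W1.coeff k) ^ 2 = 2 ∧
      ∑ k ∈ W2.coeff.support, (W2.coeff k) ^ 2 = 0)) with ⟨h1, h2⟩ | ⟨h1, h2⟩ | ⟨h1, h2⟩
  · have h3 := energy_zero _ h1
    rw [h3, map_zero, zero_mul] at hred
    have h4 : red W2 = 0 := by
      rcases mul_eq_zero.mp hred.symm with h | h
      · exact h
      · exact absurd h hz1
    have h5 := even_of_red _ h4
    rw [h2] at h5
    omega
  · obtain ⟨i, a, ha, hi⟩ := energy_one _ h1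
    obtain ⟨j, b, hb, hj⟩ := energy_one _ h2
    rw [hi, hj, v_z1, v_z2] at hcong
    have hc : ∀ n : ℤ, ((if i = n then a else 0) - (if i + 2 = n then a else 0)
        + (if i + 3 = n then a else 0)) - ((if j = n then b else 0) + (if j + 1 = n then b else 0)
        + (if j + 3 = n then b else 0)) = 2 * (T 6 * y : R).coeff n := by
      intro n
      have e1 : C a * T i * (1 - T 2 + T 3) - C b * T j * (1 + T 1 + T 3)
          = (C a * T i - C a * T (i + 2) + C a * T (i + 3))
            - (C b * T j + C b * T (j + 1) + C b * T (j + 3)) := by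
        simp only [T_add]; ring
      rw [e1, two_mul] at hcong
      have := congrArg (fun p => AddMonoidAlgebra.coeff p n) hcong
      simp only [← single_eq_C_mul_T, AddMonoidAlgebra.coeff_sub, Finsupp.sub_apply,
        AddMonoidAlgebra.coeff_add, Finsupp.add_apply, AddMonoidAlgebra.coeff_single,
        Finsupp.single_apply] at this
      rw [this]; ring
    have c1 : j = i ∨ j + 1 = i ∨ j + 3 = i := by
      have c := hc i
      rw [if_pos rfl, if_neg (by omega), if_neg (by omega)] at c
      by_contra hne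
      push Not at hne
      rw [if_neg hne.1, if_neg hne.2.1, if_neg hne.2.2] at c
      omega
    have c2 : j = i + 2 ∨ j + 1 = i + 2 ∨ j + 3 = i + 2 := by
      have c := hc (i + 2)
      rw [if_neg (by omega), if_pos rfl, if_neg (by omega)] at c
      by_contra hne
      push Not at hne
      rw [if_neg hne.1, if_neg hne.2.1, if_neg hne.2.2] at c
      omega
    have c3 : j = i + 3 ∨ j + 1 = i + 3 ∨ j + 3 = i + 3 := by
      have c := hc (i + 3)
      rw [if_neg (by omega), if_neg (by omega), if_pos rfl] at c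
      by_contra hne
      push Not at hne
      rw [if_neg hne.1, if_neg hne.2.1, if_neg hne.2.2] at c
      omega
    omega
  · have h3 := energy_zero _ h2
    rw [h3, map_zero, zero_mul] at hred
    have h4 : red W1 = 0 := by
      rcases mul_eq_zero.mp hred with h | h
      · exact h
      · exact absurd h hz2
    have h5 := even_of_red _ h4
    rw [h1] at h5
    omega

end Pool.Agent.L7h78.NoUnit
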