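import Mathlib

/-!
Unicoherence of spaces all of whose maps to the circle lift to the line.
-/

set_option autoImplicit false

open Topology Set

namespace Pool.Agent.L7h78.Unicoh

/-- A continuous integer valued difference on a connected set is constant: auxiliary form. -/
theorem const_of_coe_eq {Y : Type*} [TopologicalSpace Y] {A : Set Y} (hA : IsPreconnected A)
    {φ ψ : Y → ℝ} (hφ : ContinuousOn φ A) (hψ : ContinuousOn ψ A)
    (h : ∀ y ∈ A, ((φ y : ℝ) : AddCircle (1 : ℝ)) = ((ψ y : ℝ) : AddCircle (1 : ℝ)))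
    {y z : Y} (hy : y ∈ A) (hz : z ∈ A) : φ y - ψ y = φ z - ψ z := by
  have key : ∀ y ∈ A, ∃ n : ℤ, (n : ℝ) = φ y - ψ y := by
    intro y hy
    have := h y hy
    rw [← sub_eq_zero, ← AddCircle.coe_sub, AddCircle.coe_eq_zero_iff] at this
    obtain ⟨n, hn⟩ := this
    exact ⟨n, by simpa using hn⟩
  have hcont : ContinuousOn (fun y => φ y - ψ y) A := hφ.sub hψ
  have himg : IsPreconnected ((fun y => φ y - ψ y) '' A) := hA.image _ hcont
  have hsub : ((fun y => φ y - ψ y) '' A) ⊆ Set.range ((↑) : ℤ → ℝ) := by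
    rintro _ ⟨y, hy, rfl⟩
    obtain ⟨n, hn⟩ := key y hy
    exact ⟨n, hn⟩
  have htd : IsTotallyDisconnected (Set.range ((↑) : ℤ → ℝ)) := by
    exact (Set.countable_range _).isTotallyDisconnected
  exact htd _ hsub himg ⟨y, hy, rfl⟩ ⟨z, hz, rfl⟩

theorem unicoherent_of_lift {Y : Type*} [TopologicalSpace Y] [NormalSpace Y]
    (hlift : ∀ g : Y → AddCircle (1 : ℝ), Continuous g →
      ∃ φ : Y → ℝ, Continuous φ ∧ ∀ y, ((φ y : ℝ) : AddCircle (1 : ℝ)) = g y)
    {A B : Set Y} (hA : IsClosed A) (hB : IsClosed B) (hAc : IsPreconnected A)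
    (hBc : IsPreconnected B) (hAB : A ∪ B = univ) : IsPreconnected (A ∩ B) := by
  rw [isPreconnected_closed_iff]
  intro P Q hP hQ hsub hPn hQn
  by_contra hne
  rw [Set.not_nonempty_iff_eq_empty] at hne
  have hP' : IsClosed (A ∩ B ∩ P) := (hA.inter hB).inter hP
  have hQ' : IsClosed (A ∩ B ∩ Q) := (hA.inter hB).inter hQ
  have hdisj : Disjoint (A ∩ B ∩ P) (A ∩ B ∩ Q) := by
    rw [Set.disjoint_iff]
    rintro y ⟨⟨hy1, hy2⟩, ⟨_, hy3⟩⟩
    have : y ∈ A ∩ B ∩ (P ∩ Q) := ⟨hy1, hy2, hy3⟩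
    rw [hne] at this
    exact this
  obtain ⟨u, hu0, hu1, -⟩ := exists_continuous_zero_one_of_isClosed hP' hQ' hdisj
  classical
  let g : Y → AddCircle (1 : ℝ) := fun y =>
    if y ∈ A then ((u y / 2 : ℝ) : AddCircle (1 : ℝ)) else ((-(u y) / 2 : ℝ) : AddCircle (1 : ℝ))
  have hgA : ∀ y ∈ A, g y = ((u y / 2 : ℝ) : AddCircle (1 : ℝ)) := fun y hy => by
    simp [g, hy]
  have hgB : ∀ y ∈ B, g y = ((-(u y) / 2 : ℝ) : AddCircle (1 : ℝ)) := by
    intro y hy
    by_cases hyA : y ∈ A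
    · rw [hgA y hyA]
      rcases hsub ⟨hyA, hy⟩ with hyP | hyQ
      · have : u y = 0 := hu0 ⟨⟨hyA, hy⟩, hyP⟩
        rw [this]; simp
      · have : u y = 1 := hu1 ⟨⟨hyA, hy⟩, hyQ⟩
        rw [this, ← sub_eq_zero, ← AddCircle.coe_sub, AddCircle.coe_eq_zero_iff]
        exact ⟨1, by norm_num⟩
    · simp [g, hyA]
  have hg : Continuous g := by
    rw [← continuousOn_univ, ← hAB]
    apply ContinuousOn.union_of_isClosed _ _ hA hB
    · refine ContinuousOn.congr (f := fun y => ((u y / 2 : ℝ) : AddCircle (1 : ℝ))) ?_ hgA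
      exact ((AddCircle.continuous_mk' (1:ℝ)).comp (u.continuous.div_const 2)).continuousOn
    · refine ContinuousOn.congr (f := fun y => ((-(u y) / 2 : ℝ) : AddCircle (1 : ℝ))) ?_ hgB
      exact ((AddCircle.continuous_mk' (1:ℝ)).comp (u.continuous.neg.div_const 2)).continuousOn
  obtain ⟨φ, hφ, hφg⟩ := hlift g hg
  obtain ⟨p, ⟨hpA, hpB⟩, hpP⟩ := hPn
  obtain ⟨q, ⟨hqA, hqB⟩, hqQ⟩ := hQn
  have hup : u p = 0 := hu0 ⟨⟨hpA, hpB⟩, hpP⟩
  have huq : u q = 1 := hu1 ⟨⟨hqA, hqB⟩, hqQ⟩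
  have e1 := const_of_coe_eq (φ := φ) (ψ := fun y => u y / 2) hAc hφ.continuousOn
    (u.continuous.div_const 2).continuousOn (fun y hy => by rw [hφg, hgA y hy]) hpA hqA
  have e2 := const_of_coe_eq (φ := φ) (ψ := fun y => -(u y) / 2) hBc hφ.continuousOn
    (u.continuous.neg.div_const 2).continuousOn (fun y hy => by rw [hφg, hgB y hy]) hpB hqB
  simp only [hup, huq] at e1 e2
  linarith

end Pool.Agent.L7h78.Unicoh
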